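import Pool.Agent.V7H10.NG

/-!
# Nagao's averages for all members of families of fibrations at good Diophantine approximations

`F_c = F₀ + ∑ c i h i`, `c ∈ ℤ ^ n`, runs through a family of polynomials in `x = X 0` and the coordinates `t` of the
base `𝔸 ^ m`. If `F₀` is monic of odd degree in `x` and the `h i` are of smaller degree in `x`, all fibres
`y² = F_c(x, t)` are irreducible curves with one point at infinity, the trace of Frobenius on `H¹` of the
fibre over a point `t` over `𝔽_p` is `-∑_x χ(F_c(x, t))`, and `fav F₀ h p c` is the average `𝔄_p` of these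
traces over `𝔸 ^ m(𝔽_p)`. The question is whether the averages of `𝔄_p log p` over the primes `p < T` tend to minus the
rank; for the families considered here the number `r` of the common sections is the expected rank.

Let `β ∈ ℝ ^ l`, `τ > 0` and `δ, ε > 0`, `η = min (δ ε / 2) (1 / 2)`. We show: there is ONE set `E` of real `n × l` matrices
of Hausdorff dimension at most `(n - 1) l + (l + n - η) / (1 + τ)` such that for all matrices `α` outside `E`: for ALL
families `F₀, h` with `n` parameters, over affine spaces of any dimension `m`, which satisfy the hypotheses of the starting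
theorem `HyperellipticSystems`, all `κ` and ALL members `c` of large norm with `‖∑_i c_i α_(i j) - β_j‖ ≤ κ ‖c‖ ^ (-τ)` for all
`j` (distance to the nearest integer): the sum of `(𝔄_p(c) + r) log p` over the primes `p < T` is at most `T ^ (1/2 + δ)` in
absolute value for all `T` between `‖c‖ ^ ε` and `(‖c‖ / 8) ^ (1/4)`, with or without any bad primes. The set of the matrices
with infinitely many good approximations of order `τ ≥ n / l` has dimension `(n - 1) l + (l + n) / (1 + τ)`.

The starting theorem gives this bound in mean square over all members of height at most `H`, for one family. The good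
approximations are much less. The tool is `Pool.Agent.N671.DA` (helper671).
-/

set_option autoImplicit false

namespace Pool.Agent.Results.MP_1a0ddd_nt.ApproximationMembersH10

open Pool.Agent.Y722.HS Pool.Agent.Y722.ST
open Pool.Agent.N671.DA (Near)
open Pool.Agent.V7H10.NG (Hyp Tau Bad thin tau_of explicit countable_fam)

/-- **Nagao's averages at good approximations.** Let `n ≥ 1`, `δ, ε > 0`, `β ∈ ℝ ^ l`, `τ > 0`. There is a set `E` of real
`n × l` matrices of Hausdorff dimension at most `(n - 1) l + (l + n - min (δ ε / 2) (1 / 2)) / (1 + τ)` such that for all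
`α ∉ E`, for all `m`, `F₀`, `h`, `r`, `p₀`, `P` with `Hyp` (the hypotheses of `HyperellipticSystems`) and all real `κ`, for all
`c ∈ ℤ ^ n` of large norm with `‖∑_i c_i α_(i j) - β_j‖ ≤ κ ‖c‖ ^ (-τ)` for all `j`: for all sets `R` of primes less than `p₀`
and divisors of `P(c)` and all `T ≥ 2` with `‖c‖ ^ ε ≤ T`, `8 T ^ 4 ≤ ‖c‖` one has `|∑ (𝔄_p(c) + r) log p| ≤ T ^ (1/2 + δ)`, the
sum over the primes `p < T` outside `R` (`Tau`). The families `y² = (x - 1) ⋯ (x - r) (x^{D - r} + G_c(x, t)) + t₁²`, where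
`G_c` runs through all integral polynomials of degree less than `D - r` in `x` and at most `e` in the `t_j`, satisfy `Hyp`. -/
theorem result :
    (∀ n : ℕ, 1 ≤ n → ∀ δ ε : ℝ, 0 < δ → 0 < ε → ∀ (l : ℕ) (β : Fin l → ℝ) (τ : ℝ), 0 < τ →
      ∃ E : Set (Fin n × Fin l → ℝ),
        dimH E ≤ ENNReal.ofReal (((n : ℝ) - 1) * l + (l + ((n : ℝ) - min (δ * ε / 2) (1 / 2))) / (1 + τ)) ∧
        ∀ α, α ∉ E →
          ∀ (m : ℕ) (F₀ : MvPolynomial (Fin (m + 1)) ℤ) (h : Fin n → MvPolynomial (Fin (m + 1)) ℤ) (r : ℝ) (p₀ : ℕ)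
            (P : MvPolynomial (Fin n) ℤ), Hyp F₀ h r p₀ P → ∀ κ : ℝ, ∃ Q : ℝ, ∀ c : Fin n → ℤ, Q ≤ ‖c‖ →
              Near α β c (κ * ‖c‖ ^ (-τ)) → Tau F₀ h r p₀ P δ ε c) ∧
    (∀ (D r e k n : ℕ), r + 2 ≤ D → 1 ≤ e → ∀ (σ : Fin n ≃ Ex D r e k) (P : MvPolynomial (Fin n) ℤ), P ≠ 0 →
      Hyp (Fr D r k) (fun i => hr D r e k (σ i)) r (r + 1) P) := by
  refine ⟨fun n hn δ ε hδ hε l β τ hτ => ?_, fun D r e k n hD he σ P hP => explicit hD he σ hP⟩
  have hn1 : (1 : ℝ) ≤ n := by exact_mod_cast hn
  have := countable_fam n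
  obtain ⟨E, hE, h2⟩ := Pool.Agent.V7H10.VT.approx hn (Bad δ ε (n := n)) (s := (n : ℝ) - min (δ * ε / 2) (1 / 2))
    (by linarith [min_le_right (δ * ε / 2) (1 / 2)]) (thin hn hδ hε) β hτ
  refine ⟨E, hE, fun α hα m F₀ h r p₀ P H κ => ?_⟩
  obtain ⟨Q, hQ⟩ := h2 α hα ⟨m, F₀, h, P, p₀⟩ κ
  exact ⟨Q, fun c hc hn => tau_of H (hQ c hc hn)⟩

end Pool.Agent.Results.MP_1a0ddd_nt.ApproximationMembersH10
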