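import Pool.Agent.V7H10.NG
import Pool.Agent.V7H10.TB2

/-!
# Nagao's averages for all members of families of fibrations near values of multiplicative functions

`F_c = F₀ + ∑ c i h i`, `c ∈ ℤ ^ n`, runs through a family of polynomials in `x = X 0` and the coordinates `t` of the
base `𝔸 ^ m`. If `F₀` is monic of odd degree in `x` and the `h i` are of smaller degree in `x`, all fibres
`y² = F_c(x, t)` are irreducible curves with one point at infinity, the trace of Frobenius on `H¹` of the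
fibre over a point `t` over `𝔽_p` is `-∑_x χ(F_c(x, t))`, and `fav F₀ h p c` is the average `𝔄_p` of these
traces over `𝔸 ^ m(𝔽_p)`. The question is whether the averages of `𝔄_p log p` over the primes `p < T` tend to minus the
rank; for the families considered here the number `r` of the common sections is the expected rank.

Let `f_1, …, f_n` be positive multiplicative functions of at most polynomial growth, with `f_i p ≤ M p` for the large
primes and with different values at different large primes, for example Euler's function or the sum of the divisors,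
`α_i > 0`, `δ, ε > 0` and `0 ≤ κ`, `κ n < min (δ ε / 2) (1 / 2)`. We show, for all families `F₀, h` with `n` parameters which
satisfy the hypotheses of the starting theorem `HyperellipticSystems` and all `U`: for all but `N ^ n / (log N) ^ U` of the
`v ∈ [1, N] ^ n`, `N` large, for ALL members `c` with `||c_i| - α_i f_i(v_i)| ≤ N ^ κ` for all `i` the sum of
`(𝔄_p(c) + r) log p` over the primes `p < T` is at most `T ^ (1/2 + δ)` in absolute value for all `T` between `‖c‖ ^ ε` and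
`(‖c‖ / 8) ^ (1/4)`, with or without any bad primes.

The starting theorem gives this bound in mean square over all members of height at most `H`. The values of multiplicative
functions are taken with very large multiplicities and so this does not follow from it alone. The tool is
`Pool.Agent.N733.TG` (helper733), in the form `Pool.Agent.V7H10.TB`.
-/

set_option autoImplicit false

namespace Pool.Agent.Results.MP_1a0ddd_nt.MultiplicativeMembersH10

open Pool.Agent.Y722.HS Pool.Agent.Y722.ST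
open Pool.Agent.N733.TG (LM lm_totient lm_sigma)
open Pool.Agent.V7H10.NG (Hyp Tau count explicit)

/-- **Nagao's averages near values of multiplicative functions.** Let `n ≥ 1`, `δ, ε > 0`, `κ ≥ 0` with
`κ n < min (δ ε / 2) (1 / 2)`, let `m`, `F₀`, `h`, `r`, `p₀`, `P` be with `Hyp` (the hypotheses of `HyperellipticSystems`), let
`f_1, …, f_n` be with `LM`, `α_i > 0`. For all `U`, all large `N` and all but at most `N ^ n / (log N) ^ U` of the
`v ∈ [1, N] ^ n`: for ALL `c ∈ ℤ ^ n` with `||c_i| - α_i f_i(v_i)| ≤ N ^ κ` for all `i`, for all sets `R` of primes less than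
`p₀` and divisors of `P(c)` and all `T ≥ 2` with `‖c‖ ^ ε ≤ T`, `8 T ^ 4 ≤ ‖c‖` one has `|∑ (𝔄_p(c) + r) log p| ≤ T ^ (1/2 + δ)`,
the sum over the primes `p < T` outside `R` (`Tau`). The families
`y² = (x - 1) ⋯ (x - r) (x^{D - r} + G_c(x, t)) + t₁²`, where `G_c` runs through all integral polynomials of degree less than
`D - r` in `x` and at most `e` in the `t_j`, satisfy `Hyp`. -/
theorem result :
    (∀ n : ℕ, 1 ≤ n → ∀ δ ε κ : ℝ, 0 < δ → 0 < ε → 0 ≤ κ → κ * n < min (δ * ε / 2) (1 / 2) →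
      ∀ (m : ℕ) (F₀ : MvPolynomial (Fin (m + 1)) ℤ) (h : Fin n → MvPolynomial (Fin (m + 1)) ℤ) (r : ℝ) (p₀ : ℕ)
        (P : MvPolynomial (Fin n) ℤ), Hyp F₀ h r p₀ P →
      ∀ f : Fin n → ℕ → ℕ, (∀ i, LM (f i)) → ∀ α : Fin n → ℝ, (∀ i, 0 < α i) → ∀ U : ℕ, ∃ N₀ : ℕ, ∀ N : ℕ, N₀ ≤ N →
        ({v : Fin n → ℕ | (∀ i, 1 ≤ v i ∧ v i ≤ N) ∧
          ¬ ∀ c : Fin n → ℤ, (∀ i, |((c i).natAbs : ℝ) - α i * f i (v i)| ≤ (N : ℝ) ^ κ) →
            Tau F₀ h r p₀ P δ ε c}.ncard : ℝ) ≤ (N : ℝ) ^ n / Real.log N ^ U) ∧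
    (∀ (D r e k n : ℕ), r + 2 ≤ D → 1 ≤ e → ∀ (σ : Fin n ≃ Ex D r e k) (P : MvPolynomial (Fin n) ℤ), P ≠ 0 →
      Hyp (Fr D r k) (fun i => hr D r e k (σ i)) r (r + 1) P) ∧
    (LM Nat.totient ∧ LM (fun m => ∑ d ∈ m.divisors, d)) := by
  refine ⟨fun n hn δ ε κ hδ hε hκ hlt m F₀ h r p₀ P H f hf α hα U => ?_,
    fun D r e k n hD he σ P hP => explicit hD he σ hP, lm_totient, lm_sigma⟩
  have hn1 : (1 : ℝ) ≤ n := by exact_mod_cast hn
  obtain ⟨C, hC, hcount⟩ := count hn H hδ hε
  obtain ⟨N₀, hN₀⟩ := Pool.Agent.V7H10.TB.avoid_boxes_all hf α hα (δ := min (δ * ε / 2) (1 / 2)) (κ := κ) hκ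
    hlt (by linarith [min_le_right (δ * ε / 2) (1 / 2)]) C U
  refine ⟨max N₀ 1, fun N hNN => ?_⟩
  have hN1 : 1 ≤ N := (le_max_right _ _).trans hNN
  have h2 := hN₀ N ((le_max_left _ _).trans hNN)
    {w : Fin n → ℕ | ∃ c : Fin n → ℤ, (∀ i, (c i).natAbs = w i) ∧ ¬ Tau F₀ h r p₀ P δ ε c}
    (fun X hX => by
      have hfin : {w : Fin n → ℕ | w ∈ {w : Fin n → ℕ | ∃ c : Fin n → ℤ, (∀ i, (c i).natAbs = w i) ∧
          ¬ Tau F₀ h r p₀ P δ ε c} ∧ ∀ i, w i ≤ X}.Finite := by
        refine (Set.Finite.pi' (t := fun _ : Fin n => Set.Iic X) fun _ => Set.finite_Iic _).subset ?_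
        intro s hs j
        exact hs.2 j
      refine ⟨hfin, ?_⟩
      have hsub : {w : Fin n → ℕ | w ∈ {w : Fin n → ℕ | ∃ c : Fin n → ℤ, (∀ i, (c i).natAbs = w i) ∧
          ¬ Tau F₀ h r p₀ P δ ε c} ∧ ∀ i, w i ≤ X} ⊆
          (fun (c : Fin n → ℤ) (i : Fin n) => (c i).natAbs) '' {c : Fin n → ℤ | (∀ i, |c i| ≤ (X : ℤ)) ∧
            ¬ Tau F₀ h r p₀ P δ ε c} := by
        rintro w ⟨⟨c, hc1, hc2⟩, hw⟩
        refine ⟨c, ⟨fun i => ?_, hc2⟩, funext hc1⟩
        have h3 := hw i
        rw [← hc1 i] at h3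
        rw [Int.abs_eq_natAbs]
        exact_mod_cast h3
      have hfin2 : {c : Fin n → ℤ | (∀ i, |c i| ≤ (X : ℤ)) ∧ ¬ Tau F₀ h r p₀ P δ ε c}.Finite := by
        refine (Set.Finite.pi' (fun _ : Fin n => Set.finite_Icc (-(X : ℤ)) X)).subset ?_
        intro v hv e
        exact abs_le.1 (hv.1 e)
      have h3 := (Set.ncard_le_ncard hsub (hfin2.image _)).trans (Set.ncard_image_le hfin2)
      calc _ ≤ (({c : Fin n → ℤ | (∀ i, |c i| ≤ (X : ℤ)) ∧ ¬ Tau F₀ h r p₀ P δ ε c}.ncard : ℕ) : ℝ) := by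
            exact_mod_cast h3
        _ ≤ C * (X : ℝ) ^ ((n : ℝ) - min (δ * ε / 2) (1 / 2)) := hcount X (hN1.trans hX))
  refine le_trans ?_ h2
  apply Nat.cast_le.2
  apply Set.ncard_le_ncard
  · rintro v ⟨h3, h4⟩
    refine ⟨h3, ?_⟩
    push Not at h4
    obtain ⟨c, h5, h6⟩ := h4
    exact ⟨fun i => (c i).natAbs, ⟨c, fun _ => rfl, h6⟩, h5⟩
  · apply (Fintype.piFinset fun _ : Fin n => Finset.Icc 1 N).finite_toSet.subset
    intro v hv
    rw [Finset.mem_coe, Fintype.mem_piFinset]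
    exact fun i => Finset.mem_Icc.2 (hv.1 i)

end Pool.Agent.Results.MP_1a0ddd_nt.MultiplicativeMembersH10
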