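import Pool.Agent.V7H34.NT.Fnl

/-!
# The Tauberian generalized Nagao conjecture for the curves of arbitrary genus whose total space is
rational over a field of definition `M` of arbitrary transcendence degree

Let `M` be a finitely generated field of characteristic zero, of transcendence degree `d` over `ℚ`, which
contains the number field `k`: the function field of an arbitrary variety `S` over `k`.  Let
`K = M(w_1, ..., w_{b+1})` be a field of rational functions over `M`, the function field of a variety `Y`
over `k` of dimension `m = d + b + 1`, birational to `S × P^{b+1}`.  Let `X` be a smooth projective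
geometrically irreducible curve over `K`, of arbitrary genus, and assume that its function field `L` is a
field of rational functions in `b + 2` variables over `M`, that is, that the total space is birational to
`S × P^{b+2}`.  The two sets of variables are not related, and there is no condition on `S`.

Let `O` be a closed point of `X`, given by its valuation ring in `L`, and let `D` be the ring of the
functions which are regular on `X` outside `O`.  The class group of `D` is `Pic X` modulo the class of
`O`, so its rank is the rank of `Pic⁰ X` and of the group `J(K)` of the points of the Jacobian of `X` (for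
a rational point `O` it is `J(K)` itself).

Let `R` be any model of `K`: an integral domain, finitely generated as a ring, with the field of fractions
`K`, which contains the integers of `k`.  Let `B` be any model of `X - O`: an integral domain, finitely
generated as a ring, over `R`, whose generic fibre is `D`, and let `E` be any model of the point `O`: an
integral domain, finitely generated as a ring, over `R`, whose field of fractions is the residue field of
`O` (if `O` is rational, then `E = R` is such a model).  For a point `φ` of `Spec R` over the residue field
of the prime `v` of `k`, outside the zero set of a suitable `N`, the fibre of `X` over `φ` is a smooth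
projective curve, the number of its rational points is the number of the points of `Spec B` and of
`Spec E` over `φ`, and `trace` is the trace of Frobenius on the first cohomology of the fibre.

The theorem: the group is finitely generated, and there is `N₀ ≠ 0` such that for all the multiples
`N ≠ 0` of `N₀` the averages `T⁻¹ ∑_{q_v ≤ T} 𝔄_v log q_v`, where `𝔄_v` is `q_v^{-m}` times the sum of the
traces over the points `φ` above `v` with `N ≠ 0`, converge to `-rank J(K)` for `T → ∞`.

The `K/k`-trace of `J` is zero, since `Y` and the total space have the same Albanese variety, that of `S`,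
and `𝔄* = 𝔄`; the fibres over the zero set of `N` contribute `O(q_v^{-1/2})` to `𝔄_v`.

The proof compares the classes of divisors on open subsets of the two rational varieties over `M`, and
counts points with the theorem of Landau for the components of their complements.  The contributions of
the divisors of `S` cancel, so that nothing like the Tate conjecture is needed for `S`.
-/

set_option autoImplicit false

namespace Pool.Agent.Results.MP_1a0ddd_nt.RationalTotalSpacesH34

open NumberField IsDedekindDomain Filter Topology

/-- `K` is the field of the rational functions in `n` variables over `M`. -/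
def IsRational (M K : Type) [Field M] [Field K] [Algebra M K] (n : ℕ) : Prop :=
  ∃ w : Fin n → K, AlgebraicIndependent M w ∧ IntermediateField.adjoin M (Set.range w) = ⊤

/-- The Dedekind domain `D` is the ring of the functions which are regular on the complete curve `X` with
the function field `L` over `K` outside the point of `X` with the valuation ring `O`: the constants lie in
`D` and in `O`, and a function which is regular everywhere is constant. -/
def IsComplement (K : Type) {L D : Type} [Field K] [Field L] [Algebra K L] [CommRing D] [Algebra D L]
    (O : ValuationSubring L) : Prop :=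
  (∀ c : K, algebraMap K L c ∈ O) ∧ (∀ c : K, ∃ a : D, algebraMap D L a = algebraMap K L c) ∧
    ∀ a : D, algebraMap D L a ∈ O → ∃ c : K, algebraMap K L c = algebraMap D L a

/-- The number of the points of `Spec Z` with values in `F` over the point `φ` of `Spec R`. -/
noncomputable def points (Z : Type) {R F : Type} [CommRing R] [CommRing Z] [Algebra R Z] [CommRing F]
    (φ : R →+* F) : ℝ := Nat.card {χ : Z →+* F // χ.comp (algebraMap R Z) = φ}

/-- The trace of Frobenius on `H¹` of the fibre: `q + 1` minus the number of the affine points and of
the points at infinity. -/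
noncomputable def trace (B E : Type) {R F : Type} [CommRing R] [CommRing B] [Algebra R B] [CommRing E]
    [Algebra R E] [CommRing F] (φ : R →+* F) : ℝ := (Nat.card F : ℝ) + 1 - points B φ - points E φ

/-- The average `𝔄_v = q_v^{-m} ∑ trace(fibre)` over the points of `Spec R` above `v`, rational over the
residue field of `v`, at which `N` does not vanish. -/
noncomputable def average {k R : Type} [Field k] [NumberField k] [CommRing R] [Algebra (𝓞 k) R]
    (B E : Type) [CommRing B] [Algebra R B] [CommRing E] [Algebra R E] (N : R) (m : ℕ)
    (v : HeightOneSpectrum (𝓞 k)) : ℝ :=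
  ((Nat.card (𝓞 k ⧸ v.asIdeal) : ℝ) ^ m)⁻¹ *
    ∑ᶠ φ : {φ : R →+* 𝓞 k ⧸ v.asIdeal //
      φ.comp (algebraMap (𝓞 k) R) = Ideal.Quotient.mk v.asIdeal ∧ φ N ≠ 0}, trace B E φ.1

/-- `Σ_T(b) = ∑_{v ∉ S, q_v ≤ T} b(v) log q_v`. -/
noncomputable def sumUpTo {k : Type} [Field k] [NumberField k] (S : Finset (HeightOneSpectrum (𝓞 k)))
    (b : HeightOneSpectrum (𝓞 k) → ℝ) (T : ℝ) : ℝ :=
  ∑ᶠ v ∈ {v : HeightOneSpectrum (𝓞 k) | v ∉ S ∧ (Ideal.absNorm v.asIdeal : ℝ) ≤ T},
    b v * Real.log (Ideal.absNorm v.asIdeal : ℝ)

/-- **The Tauberian generalized Nagao conjecture for the curves over `K = M(w_1, ..., w_{b+1})` with a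
function field of the form `M(x_1, ..., x_{b+2})`, for an arbitrary finitely generated field `M` of
characteristic zero and for all the models.** -/
theorem result {k : Type} [Field k] [NumberField k] {M : Type} [Field M] [CharZero M] [Algebra k M]
    (hM : ∃ G : Finset M, Subfield.closure (G : Set M) = ⊤) {d : ℕ} (hd : Algebra.trdeg ℚ M = d)
    {K L : Type} [Field K] [Field L] [Algebra M K] [Algebra M L] [Algebra K L] [IsScalarTower M K L]
    {b : ℕ} (hK : IsRational M K (b + 1)) (hL : IsRational M L (b + 2))
    -- the curve: the point `O` and the ring of the functions which are regular outside `O`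
    (D : Type) [CommRing D] [IsDedekindDomain D] [Algebra D L] [IsFractionRing D L]
    (O : ValuationSubring L) (hO : IsComplement K (D := D) O)
    -- a model of `K`
    (R : Type) [CommRing R] [IsDomain R] [Algebra.FiniteType ℤ R] [Algebra R K] [IsFractionRing R K]
    [Algebra (𝓞 k) R]
    (hk : ∀ z : 𝓞 k, algebraMap R K (algebraMap (𝓞 k) R z) = algebraMap M K (algebraMap k M z))
    -- a model of the affine curve
    (B : Type) [CommRing B] [IsDomain B] [Algebra.FiniteType ℤ B] [Algebra R B] [Algebra B D]
    [IsLocalization (Algebra.algebraMapSubmonoid B (nonZeroDivisors R)) D]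
    (hB : Function.Injective (algebraMap B D))
    (hRB : ∀ r : R, algebraMap D L (algebraMap B D (algebraMap R B r)) =
      algebraMap K L (algebraMap R K r))
    -- a model of the point
    (E : Type) [CommRing E] [IsDomain E] [Algebra.FiniteType ℤ E] [Algebra R E]
    [Algebra E (IsLocalRing.ResidueField O)] [IsFractionRing E (IsLocalRing.ResidueField O)]
    (hE : ∀ r : R, algebraMap E (IsLocalRing.ResidueField O) (algebraMap R E r) =
      IsLocalRing.residue O ⟨algebraMap K L (algebraMap R K r), hO.1 _⟩) :
    Module.Finite ℤ (Additive (ClassGroup D)) ∧
    ∃ N₀ : R, N₀ ≠ 0 ∧ ∀ N : R, N ≠ 0 → N₀ ∣ N → ∀ S : Finset (HeightOneSpectrum (𝓞 k)),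
      Tendsto (fun T : ℝ => sumUpTo S (fun v => average B E N (d + b + 1) v) T / T) atTop
        (𝓝 (-(Module.finrank ℤ (Additive (ClassGroup D)) : ℝ))) := by
  classical
  obtain ⟨w, hw, hw'⟩ := hK
  obtain ⟨x, hx, hx'⟩ := hL
  obtain ⟨h1, N₀, hN₀, h2⟩ := Pool.Agent.V7H34.NT.final (k := k) hM hd w hw hw' x hx hx' D O hO.1
    hO.2.2 R hk B inferInstance hRB hB E hE
  refine ⟨h1, N₀, hN₀, fun N hN hdvd S => ?_⟩
  have h3 := h2 N hN hdvd S
  have h4 : (fun v : HeightOneSpectrum (𝓞 k) => average B E N (d + b + 1) v) = fun v =>
      Pool.Agent.V7H34.NT.avg (fun F _ ψ => Pool.Agent.V7H34.NT.sF B N F ψ) (d + b + 1) v +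
        Pool.Agent.V7H34.NT.avg (fun F _ ψ => Pool.Agent.V7H34.NT.sE E N F ψ) (d + b + 1) v := by
    funext v
    have hfin : Finite (𝓞 k ⧸ v.asIdeal) := Pool.Agent.H341R2.finite_v v
    have hmax : v.asIdeal.IsMaximal := v.isMaximal
    have hhom : Finite (R →+* 𝓞 k ⧸ v.asIdeal) :=
      @Pool.Agent.TH958.An.finite_hom R _ inferInstance (𝓞 k ⧸ v.asIdeal)
        (Ideal.Quotient.field v.asIdeal) hfin
    unfold average Pool.Agent.V7H34.NT.avg
    rw [← mul_add]
    congr 1
    unfold Pool.Agent.V7H34.NT.sF Pool.Agent.V7H34.NT.sE
    rw [← finsum_add_distrib (Set.toFinite _) (Set.toFinite _)]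
    refine finsum_congr fun φ => ?_
    unfold trace points Pool.Agent.V7H34.NT.nF
    ring
  rw [h4]
  exact h3

end Pool.Agent.Results.MP_1a0ddd_nt.RationalTotalSpacesH34
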