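import Pool.Agent.V7H10.NG

/-!
# Nagao's averages for all members of families of fibrations near radial starshaped sequences

`F_c = F₀ + ∑ c i h i`, `c ∈ ℤ ^ n`, runs through a family of polynomials in `x = X 0` and the coordinates `t` of the
base `𝔸 ^ m`. If `F₀` is monic of odd degree in `x` and the `h i` are of smaller degree in `x`, all fibres
`y² = F_c(x, t)` are irreducible curves with one point at infinity, the trace of Frobenius on `H¹` of the
fibre over a point `t` over `𝔽_p` is `-∑_x χ(F_c(x, t))`, and `fav F₀ h p c` is the average `𝔄_p` of these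
traces over `𝔸 ^ m(𝔽_p)`. The question is whether the averages of `𝔄_p log p` over the primes `p < T` tend to minus the
rank; for the families considered here the number `r` of the common sections is the expected rank.

Let `f_0, f_1, …` be a sequence of positive functions on `(a, ∞)` with nondecreasing `f_j(x) / x`, for example `v_j x`,
`x ^ (v_j)` with `v_j ≥ 1`, or the orbit of `x` under a map `g` with nondecreasing `g(x) / x > 1`, and with exponent of
convergence at most `τ` (the series of the `f_j(x) ^ (-s)` converge for `s > τ`; `τ = 0` for the orbits and powers),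
`θ < 1` and `δ, ε > 0`, `η = min (δ ε / 2) (1 / 2)`. We show: there is ONE set `E` in `ℝ ^ n` of Hausdorff dimension at most
`(n - η + τ) / (1 - θ)` such that for all `u` with `‖u‖ > a` outside `E`: for ALL families `F₀, h` with `n` parameters, over
affine spaces of any dimension `m`, which satisfy the hypotheses of the starting theorem `HyperellipticSystems`, all `κ` and
all large `j`, for ALL members `c` within `κ f_j(‖u‖) ^ θ` in each coordinate of the point `(f_j(‖u‖) / ‖u‖) u` of norm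
`f_j(‖u‖)` on the ray through `u`: the sum of `(𝔄_p(c) + r) log p` over the primes `p < T` is at most `T ^ (1/2 + δ)` in
absolute value for all `T` between `‖c‖ ^ ε` and `(‖c‖ / 8) ^ (1/4)`, with or without any bad primes.

The starting theorem gives this bound in mean square over all members of height at most `H`, for one family. The members
near such sequences are much less. The tool is `Pool.Agent.R482.ST` (helper482).
-/

set_option autoImplicit false

namespace Pool.Agent.Results.MP_1a0ddd_nt.StarshapedMembersH10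

open Pool.Agent.Y722.HS Pool.Agent.Y722.ST
open Pool.Agent.R482.ST (Starshaped Conv ex_mul ex_pow ex_orbit)
open Pool.Agent.V7H10.NG (Hyp Tau Bad thin tau_of explicit countable_fam)

/-- **Nagao's averages near radial starshaped sequences.** Let `n ≥ 1`, `δ, ε > 0`, let `f` be a starshaped sequence on
`(a, ∞)` with exponent of convergence at most `τ`, `θ < 1`. There is a set `E` in `ℝ ^ n` of Hausdorff dimension at most
`(n - min (δ ε / 2) (1 / 2) + τ) / (1 - θ)` such that for all `u` with `‖u‖ > a` outside `E`, for all `m`, `F₀`, `h`, `r`,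
`p₀`, `P` with `Hyp` (the hypotheses of `HyperellipticSystems`) and all real `κ`, for all large `j` and ALL `c ∈ ℤ ^ n` with
`|c_i - (f_j(‖u‖) / ‖u‖) u_i| ≤ κ f_j(‖u‖) ^ θ`: for all sets `R` of primes less than `p₀` and divisors of `P(c)` and all
`T ≥ 2` with `‖c‖ ^ ε ≤ T`, `8 T ^ 4 ≤ ‖c‖` one has `|∑ (𝔄_p(c) + r) log p| ≤ T ^ (1/2 + δ)`, the sum over the primes `p < T`
outside `R` (`Tau`). The families `y² = (x - 1) ⋯ (x - r) (x^{D - r} + G_c(x, t)) + t₁²`, where `G_c` runs through all integral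
polynomials of degree less than `D - r` in `x` and at most `e` in the `t_j`, satisfy `Hyp`. -/
theorem result :
    (∀ n : ℕ, 1 ≤ n → ∀ δ ε : ℝ, 0 < δ → 0 < ε →
      ∀ (f : ℕ → ℝ → ℝ) (a τ θ : ℝ), Starshaped a f → 0 ≤ τ → Conv a f τ → θ < 1 →
        ∃ E : Set (Fin n → ℝ), dimH E ≤ ENNReal.ofReal (((n : ℝ) - min (δ * ε / 2) (1 / 2) + τ) / (1 - θ)) ∧
          ∀ u : Fin n → ℝ, a < ‖u‖ → u ∉ E →
            ∀ (m : ℕ) (F₀ : MvPolynomial (Fin (m + 1)) ℤ) (h : Fin n → MvPolynomial (Fin (m + 1)) ℤ) (r : ℝ) (p₀ : ℕ)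
              (P : MvPolynomial (Fin n) ℤ), Hyp F₀ h r p₀ P → ∀ κ : ℝ, ∃ j₀ : ℕ, ∀ j : ℕ, j₀ ≤ j →
                ∀ c : Fin n → ℤ, (∀ i, |(c i : ℝ) - f j ‖u‖ / ‖u‖ * u i| ≤ κ * (f j ‖u‖) ^ θ) →
                  Tau F₀ h r p₀ P δ ε c) ∧
    (∀ (D r e k n : ℕ), r + 2 ≤ D → 1 ≤ e → ∀ (σ : Fin n ≃ Ex D r e k) (P : MvPolynomial (Fin n) ℤ), P ≠ 0 →
      Hyp (Fr D r k) (fun i => hr D r e k (σ i)) r (r + 1) P) ∧
    -- examples of starshaped sequences: multiples, powers, orbits
    (∀ (v : ℕ → ℝ) (τ : ℝ), (∀ n, 0 < v n) → (∀ t : ℝ, τ < t → Summable (fun n : ℕ => (v n) ^ (-t))) →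
      Starshaped 0 (fun n x => v n * x) ∧ Conv 0 (fun n x => v n * x) τ) ∧
    (∀ v : ℕ → ℝ, (∀ n, 1 ≤ v n) → (∀ t : ℝ, 0 < t → Summable fun n : ℕ => Real.exp (-(t * v n))) →
      Starshaped 1 (fun n x => x ^ (v n)) ∧ Conv 1 (fun n x => x ^ (v n)) 0) ∧
    (∀ (a : ℝ) (g : ℝ → ℝ), 0 ≤ a → (∀ x y : ℝ, a < x → x ≤ y → g x / x ≤ g y / y) → (∀ x : ℝ, a < x → x < g x) →
      Starshaped a (fun n x => g^[n] x) ∧ Conv a (fun n x => g^[n] x) 0) := by
  refine ⟨fun n hn δ ε hδ hε f a τ θ hf hτ hv hθ => ?_, fun D r e k n hD he σ P hP => explicit hD he σ hP,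
    ex_mul, ex_pow, ex_orbit⟩
  have hn1 : (1 : ℝ) ≤ n := by exact_mod_cast hn
  have := countable_fam n
  obtain ⟨E, hE, h2⟩ := Pool.Agent.V7H10.VT.star (Bad δ ε (n := n)) (s := (n : ℝ) - min (δ * ε / 2) (1 / 2))
    (by linarith [min_le_right (δ * ε / 2) (1 / 2)]) (thin hn hδ hε) hf hτ hv hθ
  refine ⟨E, hE, fun u hu huE m F₀ h r p₀ P H κ => ?_⟩
  obtain ⟨j₀, hj₀⟩ := h2 u hu huE ⟨m, F₀, h, P, p₀⟩ κ
  exact ⟨j₀, fun j hj c hc => tau_of H (hj₀ j hj c hc)⟩

end Pool.Agent.Results.MP_1a0ddd_nt.StarshapedMembersH10
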